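import Pool.Agent.Helper102_FactPow.Basic

set_option autoImplicit false

namespace Pool.Agent.Results.MP_ffd2af_nt.BaseCongruences

open Pool.Agent.Helper102_FactPow

/-- If `n > 4` and `a(n) = b ^ e` with `e > 1`, then `b ≡ 1 mod 2 ^ ⌊n/2⌋` and `q ∣ b + 1` for every
odd prime `q ≤ (n + 3) / 2`. -/
theorem result : ∀ n b e : ℕ, 4 < n → 1 < e → a n = b ^ e →
    b ≡ 1 [MOD 2 ^ (n / 2)] ∧
      ∀ q : ℕ, q.Prime → q ≠ 2 → 2 * q ≤ n + 3 → q ∣ b + 1 := by
  intro n b e hn he hab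
  exact ⟨base_mod_two_pow n b e hn he hab, base_mod_prime n b e hn he hab⟩

end Pool.Agent.Results.MP_ffd2af_nt.BaseCongruences
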