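import Mathlib

/-!
Perfect powers among the sums `a(n) = ∑_{i=1}^n (i!)^((n-i+1)!)`.
We show: if `n > 4` and `a(n) = b^e` with `b, e > 1`, then every prime factor of `e` is at
least `n`, `2^(v_2(n!))` divides `b - 1`, each prime `p` with `2p ≤ n + 3` divides `b + 1`,
`e * v_2(n!) ≤ (n-1)!`, and `n ≥ 9`.
-/

open Nat Finset

namespace Pool.Agent.Results.MP_ffd2af_nt.ExponentPrimesLarge

/-- `a n = ∑_{i=1}^n (i!)^((n-i+1)!)`. -/
def a (n : ℕ) : ℕ := ∑ i ∈ Finset.Icc 1 n, (i !) ^ ((n - i + 1)!)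

lemma succ_le_fact (i : ℕ) (h : 3 ≤ i) : i + 1 ≤ i ! := by
  induction i, h using Nat.le_induction with
  | base => decide
  | succ i hi ih =>
    rw [Nat.factorial_succ]
    nlinarith

lemma term_step (n i : ℕ) (h3 : 3 ≤ i) (hi : i < n) :
    ((i + 1)!) ^ ((n - (i + 1) + 1)!) ≤ (i !) ^ ((n - i + 1)!) := by
  obtain ⟨m, rfl⟩ : ∃ m, n = i + 1 + m := ⟨n - (i+1), by omega⟩
  have e1 : i + 1 + m - (i + 1) + 1 = m + 1 := by omega
  have e2 : i + 1 + m - i + 1 = m + 2 := by omega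
  rw [e1, e2]
  have h1 : (i + 1)! ≤ (i !)^2 := by
    rw [Nat.factorial_succ, pow_two]
    exact Nat.mul_le_mul_right _ (succ_le_fact i h3)
  calc ((i+1)!) ^ ((m+1)!) ≤ ((i !)^2) ^ ((m+1)!) := Nat.pow_le_pow_left h1 _
    _ = (i !) ^ (2 * (m+1)!) := by rw [← pow_mul]
    _ ≤ (i !) ^ ((m+2)!) := by
        apply Nat.pow_le_pow_right (Nat.factorial_pos i)
        rw [Nat.factorial_succ (m+1)]
        exact Nat.mul_le_mul_right _ (by omega)

lemma term_le (n i : ℕ) (h3 : 3 ≤ i) (hi : i ≤ n) :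
    (i !) ^ ((n - i + 1)!) ≤ 6 ^ ((n - 2)!) := by
  induction i, h3 using Nat.le_induction with
  | base =>
    have : n - 3 + 1 = n - 2 := by omega
    rw [this]
    exact le_of_eq (by norm_num [Nat.factorial])
  | succ i h3 ih =>
    exact (term_step n i h3 (by omega)).trans (ih (by omega))

lemma a_split (n : ℕ) (hn : 2 ≤ n) :
    a n = 1 + 2 ^ ((n-1)!) + ∑ i ∈ Finset.Icc 3 n, (i !) ^ ((n - i + 1)!) := by
  unfold a
  have h1 : Finset.Icc 1 n = Finset.Ico 1 (n+1) := by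
    ext x; simp only [Finset.mem_Icc, Finset.mem_Ico]; omega
  have h3 : Finset.Icc 3 n = Finset.Ico 3 (n+1) := by
    ext x; simp only [Finset.mem_Icc, Finset.mem_Ico]; omega
  rw [h1, h3, Finset.sum_eq_sum_Ico_succ_bot (by omega), Finset.sum_eq_sum_Ico_succ_bot (by omega)]
  have e2 : n - 2 + 1 = n - 1 := by omega
  have e3 : (2 : ℕ)! = 2 := by decide
  have e4 : (1 : ℕ)! = 1 := by decide
  have e5 : n - (1 + 1) + 1 = n - 1 := by omega
  rw [e4, one_pow, e5, show (1 + 1 : ℕ)! = 2 from e3, ← add_assoc]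

lemma a_split1 (n : ℕ) (hn : 1 ≤ n) :
    a n = 1 + ∑ i ∈ Finset.Icc 2 n, (i !) ^ ((n - i + 1)!) := by
  unfold a
  have h1 : Finset.Icc 1 n = Finset.Ico 1 (n+1) := by
    ext x; simp only [Finset.mem_Icc, Finset.mem_Ico]; omega
  have h3 : Finset.Icc 2 n = Finset.Ico 2 (n+1) := by
    ext x; simp only [Finset.mem_Icc, Finset.mem_Ico]; omega
  rw [h1, h3, Finset.sum_eq_sum_Ico_succ_bot (by omega)]
  have e4 : (1 : ℕ)! = 1 := by decide
  rw [e4, one_pow]

lemma a_gt (n : ℕ) (hn : 2 ≤ n) : 2 ^ ((n-1)!) < a n := by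
  rw [a_split n hn]; omega

lemma four_pow_ge (M : ℕ) : 3 ^ M * (3 + M) ≤ 4 ^ M * 3 := by
  induction M with
  | zero => norm_num
  | succ M ih =>
    have h3 : 0 < 3 ^ M := by positivity
    calc 3 ^ (M+1) * (3 + (M+1)) = 3 ^ M * (3 * M + 12) := by ring
      _ ≤ 4 * (3 ^ M * (3 + M)) := by nlinarith
      _ ≤ 4 * (4 ^ M * 3) := by omega
      _ = 4 ^ (M+1) * 3 := by ring

lemma eight_pow_ge (n M : ℕ) (hM : 3 * n ≤ M + 3) : n * 6 ^ M ≤ 8 ^ M := by
  have h := four_pow_ge M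
  have h3 : 0 < 3 ^ M := by positivity
  have h1 : 3 ^ M * n ≤ 4 ^ M := by
    have : 3 ^ M * (3 * n) ≤ 3 ^ M * (3 + M) := Nat.mul_le_mul_left _ (by omega)
    nlinarith
  have e6 : (6:ℕ) ^ M = 3 ^ M * 2 ^ M := by rw [← mul_pow]; norm_num
  have e8 : (8:ℕ) ^ M = 4 ^ M * 2 ^ M := by rw [← mul_pow]; norm_num
  rw [e6, e8]
  calc n * (3 ^ M * 2 ^ M) = (3 ^ M * n) * 2 ^ M := by ring
    _ ≤ 4 ^ M * 2 ^ M := Nat.mul_le_mul_right _ h1

lemma a_le (n : ℕ) (hn : 7 ≤ n) : a n ≤ 2 ^ ((n-1)!) + 2 ^ ((n-1)! / 2) := by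
  rw [a_split n (by omega)]
  have hs : ∑ i ∈ Finset.Icc 3 n, (i !) ^ ((n - i + 1)!) ≤ (n - 2) * 6 ^ ((n-2)!) := by
    have h := Finset.sum_le_card_nsmul (Finset.Icc 3 n) (fun i => (i !) ^ ((n - i + 1)!))
      (6 ^ ((n-2)!)) (by
        intro i hi
        rw [Finset.mem_Icc] at hi
        exact term_le n i hi.1 hi.2)
    have hc : (Finset.Icc 3 n).card = n - 2 := by rw [Nat.card_Icc]; omega
    rw [hc, smul_eq_mul] at h
    exact h
  obtain ⟨m, rfl⟩ : ∃ m, n = m + 7 := ⟨n - 7, by omega⟩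
  have hM : (m + 7 - 1)! = (m + 6) * (m + 5)! := by
    rw [show m + 7 - 1 = (m + 5) + 1 by omega, Nat.factorial_succ]
  have hM2 : (m + 7 - 2)! = (m + 5)! := by
    rw [show m + 7 - 2 = m + 5 by omega]
  rw [hM2] at hs
  have hbig : 3 * (m + 6) ≤ (m+5)! + 3 := by
    have h1 : (m+5)! = (m+5) * ((m+4) * (m+3)!) := by
      rw [Nat.factorial_succ, Nat.factorial_succ]
    have h2 : 0 < (m+3)! := Nat.factorial_pos _
    rw [h1]
    nlinarith [Nat.mul_le_mul_left ((m+5)*(m+4)) h2]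
  have h8 := eight_pow_ge (m+6) ((m+5)!) hbig
  have h2 : (8:ℕ) ^ ((m+5)!) ≤ 2 ^ ((m + 7 - 1)! / 2) := by
    rw [show (8:ℕ) = 2 ^ 3 by norm_num, ← pow_mul]
    apply Nat.pow_le_pow_right (by norm_num)
    rw [hM, Nat.le_div_iff_mul_le (by norm_num)]
    nlinarith [Nat.factorial_pos (m+5)]
  have h6 : 1 ≤ 6 ^ ((m+5)!) := Nat.one_le_pow _ _ (by norm_num)
  have e : m + 7 - 2 = m + 5 := by omega
  rw [e] at hs
  nlinarith

lemma succ_pow_ge (B m : ℕ) : B ^ (m+1) + (m+1) * B ^ m ≤ (B+1) ^ (m+1) := by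
  induction m with
  | zero => simp
  | succ m ih =>
    calc B ^ (m+1+1) + (m+1+1) * B ^ (m+1)
        ≤ (B ^ (m+1) + (m+1) * B ^ m) * (B + 1) := by
          have : (B ^ (m+1) + (m+1) * B ^ m) * (B + 1)
            = B ^ (m+1+1) + (m+1+1) * B ^ (m+1) + (m+1) * B ^ m := by ring
          rw [this]; exact Nat.le_add_right _ _
      _ ≤ (B+1) ^ (m+1) * (B+1) := Nat.mul_le_mul_right _ ih
      _ = (B+1) ^ (m+1+1) := by ring

/-- no `q`-th power for a prime `q < n`, `n ≥ 7`. -/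
lemma no_small_prime (n : ℕ) (hn : 7 ≤ n) (q : ℕ) (hq : q.Prime) (hqn : q < n) (c : ℕ)
    (h : a n = c ^ q) : False := by
  have hdvd : q ∣ (n-1)! := (Nat.Prime.dvd_factorial hq).mpr (by omega)
  obtain ⟨k, hk⟩ := hdvd
  have hle := a_le n hn
  have hgt := a_gt n (by omega)
  have hq2 := hq.two_le
  have hBc : 2 ^ k < c := by
    by_contra hcon
    push Not at hcon
    have : c ^ q ≤ (2 ^ k) ^ q := Nat.pow_le_pow_left hcon q
    rw [← pow_mul, mul_comm k q, ← hk, ← h] at this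
    omega
  have h1 : (2 ^ k + 1) ^ q ≤ c ^ q := Nat.pow_le_pow_left hBc q
  obtain ⟨r, rfl⟩ : ∃ r, q = r + 1 := ⟨q - 1, by omega⟩
  have h2 := succ_pow_ge (2 ^ k) r
  have h3 : (2 ^ k) ^ (r+1) = 2 ^ ((n-1)!) := by
    rw [← pow_mul, mul_comm k (r+1), ← hk]
  have h4 : 2 ^ ((n-1)! / 2) ≤ (2 ^ k) ^ r := by
    rw [← pow_mul]
    apply Nat.pow_le_pow_right (by norm_num)
    apply Nat.div_le_of_le_mul
    rw [hk]
    nlinarith
  have h5 : 0 < 2 ^ ((n-1)! / 2) := by positivity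
  rw [h3] at h2
  rw [← h] at h1
  have h6 : 2 * (2 ^ k) ^ r ≤ (r + 1) * (2 ^ k) ^ r := Nat.mul_le_mul_right _ hq2
  omega

/-! ### 2-adic part -/

lemma two_pow_dvd (k : ℕ) : 2 ^ k ∣ (2 * k)! := by
  induction k with
  | zero => simp
  | succ k ih =>
    rw [show 2 * (k+1) = (2 * k + 1) + 1 by ring, Nat.factorial_succ, Nat.factorial_succ, pow_succ,
      mul_comm (2 ^ k) 2]
    apply Nat.mul_dvd_mul
    · exact ⟨k + 1, by ring⟩
    · exact Dvd.dvd.mul_left ih _

lemma half_le_val (i : ℕ) : i / 2 ≤ padicValNat 2 (i !) := by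
  rw [← padicValNat_dvd_iff_le (Nat.factorial_ne_zero i)]
  exact (two_pow_dvd (i/2)).trans (Nat.factorial_dvd_factorial (Nat.mul_div_le i 2))

lemma val_succ (i : ℕ) :
    padicValNat 2 ((i+1)!) = padicValNat 2 (i+1) + padicValNat 2 (i !) := by
  rw [Nat.factorial_succ, padicValNat.mul (by omega) (Nat.factorial_ne_zero i)]

lemma val_step (n i : ℕ) (hn : 5 ≤ n) (h2 : 2 ≤ i) (hi : i < n) :
    padicValNat 2 (i+1) ≤ (n - i) * padicValNat 2 (i !) := by
  rcases Nat.lt_or_ge i 4 with h4 | h4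
  · interval_cases i
    · have : padicValNat 2 (2+1) = 0 := by
        apply padicValNat.eq_zero_of_not_dvd; norm_num
      rw [this]; omega
    · have h : padicValNat 2 (3+1) = 2 := by
        rw [show (3+1:ℕ) = 2 ^ 2 by norm_num]
        exact padicValNat.prime_pow 2
      have h' := half_le_val 3
      rw [h]
      have : 1 ≤ padicValNat 2 (3 !) := by simpa using h'
      nlinarith [Nat.mul_le_mul_left (n - 3) this, show 2 ≤ n - 3 + 0 by omega]
  · have h1 : padicValNat 2 (i+1) ≤ Nat.log 2 (i+1) := padicValNat_le_nat_log _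
    have h3 : Nat.log 2 (i+1) ≤ i / 2 := by
      have : Nat.log 2 (i+1) < i / 2 + 1 := by
        apply Nat.log_lt_of_lt_pow (by omega)
        have key : ∀ k, 2 ≤ k → 2 * k + 2 < 2 ^ (k+1) := by
          intro k hk
          induction k, hk using Nat.le_induction with
          | base => norm_num
          | succ k hk ih => rw [pow_succ]; omega
        have := key (i/2) (by omega)
        omega
      omega
    have h5 := half_le_val i
    have h6 : 1 * padicValNat 2 (i !) ≤ (n - i) * padicValNat 2 (i !) :=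
      Nat.mul_le_mul_right _ (by omega)
    omega

lemma val_le (n : ℕ) (hn : 5 ≤ n) (m i : ℕ) (h2 : 2 ≤ i) (hi : i + m = n) :
    padicValNat 2 (n !) ≤ padicValNat 2 (i !) * (n - i + 1)! := by
  induction m generalizing i with
  | zero =>
    have : i = n := by omega
    subst this
    simp
  | succ m ih =>
    have h := ih (i+1) (by omega) (by omega)
    have hs := val_step n i hn h2 (by omega)
    have hv := val_succ i
    have e1 : n - (i + 1) + 1 = m + 1 := by omega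
    have e2 : n - i + 1 = m + 1 + 1 := by omega
    have e3 : n - i = m + 1 := by omega
    rw [e1] at h
    rw [e3] at hs
    rw [e2, Nat.factorial_succ]
    calc padicValNat 2 (n !) ≤ padicValNat 2 ((i + 1)!) * (m + 1)! := h
      _ ≤ ((m + 1) * padicValNat 2 (i !) + padicValNat 2 (i !)) * (m+1)! := by
          apply Nat.mul_le_mul_right
          omega
      _ = padicValNat 2 (i !) * ((m + 1 + 1) * (m + 1)!) := by ring

lemma two_val_dvd (n : ℕ) (hn : 5 ≤ n) : 2 ^ (padicValNat 2 (n !)) ∣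
    ∑ i ∈ Finset.Icc 2 n, (i !) ^ ((n - i + 1)!) := by
  apply Finset.dvd_sum
  intro i hi
  rw [Finset.mem_Icc] at hi
  have h1 : padicValNat 2 (n !) ≤ padicValNat 2 (i !) * (n - i + 1)! :=
    val_le n hn (n - i) i hi.1 (by omega)
  have h2 : 2 ^ (padicValNat 2 (i !)) ∣ i ! := pow_padicValNat_dvd
  have h3 : (2 ^ (padicValNat 2 (i !))) ^ ((n - i + 1)!) ∣ (i !) ^ ((n - i + 1)!) :=
    pow_dvd_pow_of_dvd h2 _
  rw [← pow_mul] at h3
  exact (pow_dvd_pow 2 h1).trans h3

/-- from `b^e = 1 + S`, `2^v ∣ S`, `v ≥ 1`, `e` odd, deduce `2^v ∣ b - 1`. -/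
lemma dvd_of_odd (b e v S : ℕ) (hb : 1 ≤ b) (hv : 1 ≤ v) (he : Odd e) (h : b ^ e = 1 + S)
    (hS : 2 ^ v ∣ S) : 2 ^ v ∣ b - 1 := by
  have hSe : 2 ∣ S := (dvd_pow_self 2 (by omega)).trans hS
  have hbodd : Odd b := by
    have h1 : Odd (b ^ e) := by
      rw [h]; obtain ⟨s, rfl⟩ := hSe; exact ⟨s, by ring⟩
    rcases Nat.even_or_odd b with hb' | hb'
    · exfalso
      have : Even (b ^ e) := hb'.pow_of_ne_zero (by rcases he with ⟨x, hx⟩; omega)
      exact (Nat.not_even_iff_odd.mpr h1) this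
    · exact hb'
  have hgeo : (b - 1) * ∑ i ∈ Finset.range e, b ^ i = S := by
    have h2 : ((b:ℤ) - 1) * ∑ i ∈ Finset.range e, (b:ℤ) ^ i = (b:ℤ) ^ e - 1 := mul_geom_sum _ _
    have h3 : (((b - 1) * ∑ i ∈ Finset.range e, b ^ i : ℕ) : ℤ) = (S : ℤ) := by
      push_cast [Nat.cast_sub hb]
      rw [h2]
      have : ((b ^ e : ℕ) : ℤ) = ((1 + S : ℕ) : ℤ) := by rw [h]
      push_cast at this
      linarith
    exact_mod_cast h3
  have hsum : Odd (∑ i ∈ Finset.range e, b ^ i) := by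
    rw [Finset.odd_sum_iff_odd_card_odd]
    have : (Finset.range e).filter (fun i => Odd (b ^ i)) = Finset.range e := by
      apply Finset.filter_true_of_mem
      intro i _
      exact hbodd.pow
    rw [this, Finset.card_range]
    exact he
  have hcop : Nat.Coprime (2 ^ v) (∑ i ∈ Finset.range e, b ^ i) :=
    Nat.Coprime.pow_left v ((Nat.coprime_two_left).mpr hsum)
  rw [← hgeo] at hS
  exact hcop.dvd_of_dvd_mul_right hS

/-! ### odd primes -/

lemma a_mod (n p : ℕ) (hp : p.Prime) (h : 2 * p ≤ n + 3) (hpn : p ≤ n) :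
    ((a n : ℕ) : ZMod p) = -1 := by
  have := Fact.mk hp
  unfold a
  push_cast
  have h1 : ∀ i ∈ Finset.Icc 1 n, ((i ! : ℕ) : ZMod p) ^ ((n - i + 1)!) =
      if i < p then 1 else 0 := by
    intro i hi
    rw [Finset.mem_Icc] at hi
    by_cases hip : i < p
    · rw [if_pos hip]
      have hne : ((i ! : ℕ) : ZMod p) ≠ 0 := by
        intro h0
        rw [ZMod.natCast_eq_zero_iff] at h0
        have := (Nat.Prime.dvd_factorial hp).mp h0
        omega
      have hd : p - 1 ∣ (n - i + 1)! := by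
        apply Nat.dvd_factorial
        · have := hp.two_le; omega
        · omega
      obtain ⟨k, hk⟩ := hd
      rw [hk, pow_mul, ZMod.pow_card_sub_one_eq_one hne, one_pow]
    · rw [if_neg hip]
      have h0 : ((i ! : ℕ) : ZMod p) = 0 := by
        rw [ZMod.natCast_eq_zero_iff]
        exact (Nat.Prime.dvd_factorial hp).mpr (by omega)
      rw [h0, zero_pow (Nat.factorial_ne_zero _)]
  rw [Finset.sum_congr rfl h1, ← Finset.sum_filter]
  have h2 : (Finset.Icc 1 n).filter (fun i => i < p) = Finset.Icc 1 (p-1) := by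
    ext x
    simp only [Finset.mem_filter, Finset.mem_Icc]
    have := hp.two_le
    omega
  rw [h2]
  simp only [Finset.sum_const, Nat.card_Icc, nsmul_eq_mul, mul_one]
  rw [show p - 1 + 1 - 1 = p - 1 by omega, Nat.cast_sub hp.one_le]
  simp

lemma dvd_succ (n p b e : ℕ) (hp : p.Prime) (h : 2 * p ≤ n + 3) (hpn : p ≤ n)
    (he : Odd e) (hprimes : ∀ q : ℕ, q.Prime → q ∣ e → n ≤ q) (hab : a n = b ^ e) :
    p ∣ b + 1 := by
  have := Fact.mk hp
  have h1 := a_mod n p hp h hpn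
  rw [hab] at h1
  push_cast at h1
  have h2 : (-(b : ZMod p)) ^ e = 1 := by
    rw [he.neg_pow, h1]; ring
  have hne : (-(b : ZMod p)) ≠ 0 := by
    intro h0
    rw [h0, zero_pow (by rcases he with ⟨x, hx⟩; omega)] at h2
    exact zero_ne_one h2
  have h3 := ZMod.pow_card_sub_one_eq_one hne
  have d1 := orderOf_dvd_of_pow_eq_one h2
  have d2 := orderOf_dvd_of_pow_eq_one h3
  have hone : orderOf (-(b : ZMod p)) = 1 := by
    by_contra hcon
    obtain ⟨r, hr, hrd⟩ := Nat.exists_prime_and_dvd hcon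
    have hr1 := hprimes r hr (hrd.trans d1)
    have hr2 := Nat.le_of_dvd (by have := hp.two_le; omega) (hrd.trans d2)
    have := hp.two_le
    omega
  rw [orderOf_eq_one_iff] at hone
  rw [← ZMod.natCast_eq_zero_iff]
  push_cast
  have : (b : ZMod p) = -1 := by rw [← hone]; ring
  rw [this]; ring

/-! ### The finite check -/

/-- integer root by bits -/
def rt (q A : ℕ) : ℕ → ℕ → ℕ
  | 0, c => c
  | k+1, c => bif Nat.ble ((c + 2 ^ k) ^ q) A then rt q A k (c + 2 ^ k) else rt q A k c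

/-- check that `A` is strictly between two consecutive `q`-th powers. -/
def chk (q A : ℕ) : Bool :=
  let c := rt q A (Nat.log2 A / q + 1) 0
  Nat.blt (c ^ q) A && Nat.blt A ((c+1) ^ q)

lemma chk_spec (q A : ℕ) (h : chk q A = true) (b : ℕ) (hb : A = b ^ q) : False := by
  unfold chk at h
  simp only [Bool.and_eq_true] at h
  obtain ⟨h1, h2⟩ := h
  generalize rt q A (Nat.log2 A / q + 1) 0 = c at h1 h2
  have h1' : c ^ q < A := by simpa [Nat.blt_eq] using h1
  have h2' : A < (c+1) ^ q := by simpa [Nat.blt_eq] using h2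
  rw [hb] at h1' h2'
  have a1 : c < b := lt_of_pow_lt_pow_left₀ q (by omega) h1'
  have a2 : b < c + 1 := lt_of_pow_lt_pow_left₀ q (by omega) h2'
  omega

/-- check all exponents `2 ≤ q < L`. -/
def chkAll (A : ℕ) : ℕ → Bool
  | 0 => true
  | k+1 => (Nat.blt k 2 || chk k A) && chkAll A k

lemma chkAll_spec (A L : ℕ) (h : chkAll A L = true) (q : ℕ) (hq : 2 ≤ q) (hL : q < L) :
    chk q A = true := by
  induction L with
  | zero => omega
  | succ L ih =>
    rw [chkAll, Bool.and_eq_true] at h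
    rcases Nat.lt_or_ge q L with h1 | h1
    · exact ih h.2 h1
    · have : q = L := by omega
      subst this
      have h2 := h.1
      rw [Bool.or_eq_true] at h2
      rcases h2 with h2 | h2
      · exfalso
        have : q < 2 := by simpa [Nat.blt_eq] using h2
        omega
      · exact h2

lemma not_pp (A L : ℕ) (hA : A < 2 ^ L) (h : chkAll A L = true) (b e : ℕ) (hb : 1 < b)
    (he : 1 < e) (hab : A = b ^ e) : False := by
  have h1 : e < L := by
    by_contra hcon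
    push Not at hcon
    have : 2 ^ L ≤ b ^ e :=
      (Nat.pow_le_pow_right (by norm_num) hcon).trans (Nat.pow_le_pow_left hb e)
    omega
  exact chk_spec e A (chkAll_spec A L h e he h1) b hab

lemma small5 (b e : ℕ) (hb : 1 < b) (he : 1 < e) (hab : a 5 = b ^ e) : False := by
  have h : a 5 = 16824569 := by decide +kernel
  rw [h] at hab
  exact not_pp _ 25 (by norm_num) (by decide +kernel) b e hb he hab

lemma small6 (b e : ℕ) (hb : 1 < b) (he : 1 < e) (hab : a 6 = b ^ e) : False := by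
  have h : a 6 = 1 + 2 ^ 120 + 6 ^ 24 + 24 ^ 6 + 120 ^ 2 + 720 := by decide +kernel
  rw [h] at hab
  exact not_pp _ 121 (by norm_num) (by decide +kernel) b e hb he hab

lemma small7 (b e : ℕ) (hb : 1 < b) (he : 1 < e) (hab : a 7 = b ^ e) : False := by
  have h : a 7 = 1 + 2 ^ 720 + 6 ^ 120 + 24 ^ 24 + 120 ^ 6 + 720 ^ 2 + 5040 := by decide +kernel
  rw [h] at hab
  exact not_pp _ 721 (by decide +kernel) (by decide +kernel) b e hb he hab

lemma small8 (b e : ℕ) (hb : 1 < b) (he : 1 < e) (hab : a 8 = b ^ e) : False := by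
  have h : a 8 = 1 + 2 ^ 5040 + 6 ^ 720 + 24 ^ 120 + 120 ^ 24 + 720 ^ 6 + 5040 ^ 2 + 40320 := by
    decide +kernel
  rw [h] at hab
  exact not_pp _ 5041 (by decide +kernel) (by decide +kernel) b e hb he hab

/-- If `n > 4` and `a(n) = b^e` with `b, e > 1`, then `n ≥ 9`, every prime factor of `e` is at
least `n`, `2^(v_2(n!))` divides `b - 1`, each prime `p` with `2p ≤ n + 3` divides `b + 1`,
and `e * v_2(n!) ≤ (n-1)!`. -/
theorem result (n b e : ℕ) (hn : 4 < n) (hb : 1 < b) (he : 1 < e)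
    (hab : ∑ i ∈ Finset.Icc 1 n, (i !) ^ ((n - i + 1)!) = b ^ e) :
    9 ≤ n ∧ (∀ q : ℕ, q.Prime → q ∣ e → n ≤ q) ∧
    2 ^ (padicValNat 2 (n !)) ∣ b - 1 ∧
    (∀ p : ℕ, p.Prime → 2 * p ≤ n + 3 → p ∣ b + 1) ∧
    e * padicValNat 2 (n !) ≤ (n - 1)! := by
  change a n = b ^ e at hab
  have h9 : 9 ≤ n := by
    by_contra hcon
    push Not at hcon
    interval_cases n
    · exact small5 b e hb he hab
    · exact small6 b e hb he hab
    · exact small7 b e hb he hab
    · exact small8 b e hb he hab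
  have hprimes : ∀ q : ℕ, q.Prime → q ∣ e → n ≤ q := by
    intro q hq hqe
    by_contra hcon
    push Not at hcon
    obtain ⟨k, rfl⟩ := hqe
    apply no_small_prime n (by omega) q hq hcon (b ^ k)
    rw [hab, ← pow_mul, mul_comm]
  have hodd : Odd e := by
    rcases Nat.even_or_odd e with h | h
    · have := hprimes 2 Nat.prime_two h.two_dvd
      omega
    · exact h
  have hv1 : 1 ≤ padicValNat 2 (n !) := by
    have := half_le_val n
    omega
  have h2 : 2 ^ (padicValNat 2 (n !)) ∣ b - 1 := by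
    apply dvd_of_odd b e _ _ (by omega) hv1 hodd _ (two_val_dvd n (by omega))
    rw [← hab, a_split1 n (by omega)]
  refine ⟨h9, hprimes, h2, ?_, ?_⟩
  · intro p hp h2p
    exact dvd_succ n p b e hp h2p (by omega) hodd hprimes hab
  · have h3 : 2 ^ (padicValNat 2 (n !)) ≤ b - 1 := Nat.le_of_dvd (by omega) h2
    have h4 : (2 ^ (padicValNat 2 (n !))) ^ e ≤ b ^ e := Nat.pow_le_pow_left (by omega) e
    have h5 : (2 ^ (padicValNat 2 (n !))) ^ e < b ^ e := Nat.pow_lt_pow_left (by omega) (by omega)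
    rw [← pow_mul, ← hab] at h5
    have h6 := a_le n (by omega)
    have h7 : 2 ^ ((n-1)! / 2) ≤ 2 ^ ((n-1)!) :=
      Nat.pow_le_pow_right (by norm_num) (Nat.div_le_self _ _)
    have h8 : 2 ^ (padicValNat 2 (n !) * e) < 2 ^ ((n-1)! + 1) := by
      rw [pow_succ]; omega
    have h10 := (Nat.pow_lt_pow_iff_right (by norm_num : 1 < 2)).mp h8
    rw [mul_comm]
    omega

end Pool.Agent.Results.MP_ffd2af_nt.ExponentPrimesLarge
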