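import Mathlib
import Pool.Agent.H374R2.W.QM
import Pool.Agent.H374R2.W.QL

/-!
# Perfect powers among the sums of factorials raised to factorials

Let `a n` be the sum of `(i!) ^ ((n - i + 1)!)` over `1 ≤ i ≤ n`.  We show: if `n > 4` and
`a n = b ^ e` with `e > 1`, then every prime factor `p` of `e` satisfies `n ≤ p < 2 ^ 42`.  In
particular `a n` is no perfect power for `n ≥ 2 ^ 42`, and for `n > 4` it is no `e`-th power if `e` has a prime
factor less than `n`.

Proof.  Let `p` be a prime factor of `e` and `N = (n - 1)!`.  For `n ≥ 7` the sum of all the terms except the second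
one, `2 ^ N`, is less than `8 ^ ((n - 2)!) ≤ 2 ^ (N / 2)`.  If `p < n` then `p ∣ N`, and `a n` lies strictly between
`c ^ p = 2 ^ N` and `(c + 1) ^ p`, where `c = 2 ^ (N / p)`.  If `p ≥ n` then `p ∤ N`, and the `p`-th power `a n` is so
close to `2 ^ N` that the lower bound for linear forms in two logarithms of the starting files
(`Pool.Agent.H374R2.W.QM.real_two_logs`) gives `p < 2 ^ 42`.  The numbers `a 5` and `a 6` are compared with powers
directly.
-/

set_option autoImplicit false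

namespace Pool.Agent.Results.MP_ffd2af_nt.LargeIndices

open Finset Nat

/-- The sum of `(i!) ^ ((n - i + 1)!)` over `1 ≤ i ≤ n`. -/
def a (n : ℕ) : ℕ := ∑ i ∈ Finset.Icc 1 n, (i !) ^ ((n - i + 1)!)

/-- `i + 3` factorial is at most `6 ^ (2 ^ i)`. -/
lemma fact_le (i : ℕ) : (i + 3)! ≤ 6 ^ (2 ^ i) := by
  induction i with
  | zero => decide
  | succ i ih =>
    have h1 : i + 4 ≤ 6 ^ (2 ^ i) := by
      have h2 : i < 2 ^ i := Nat.lt_two_pow_self
      have h3 : 2 ^ i + 4 ≤ 6 ^ (2 ^ i) := by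
        have h4 : 1 ≤ 2 ^ i := Nat.one_le_two_pow
        generalize 2 ^ i = k at h4
        induction k, h4 using Nat.le_induction with
        | base => norm_num
        | succ k hk ihk => rw [pow_succ]; omega
      omega
    calc (i + 1 + 3)! = (i + 4) * (i + 3)! := by
          rw [show i + 1 + 3 = (i + 3) + 1 by ring, Nat.factorial_succ]
      _ ≤ 6 ^ (2 ^ i) * 6 ^ (2 ^ i) := Nat.mul_le_mul h1 ih
      _ = 6 ^ (2 ^ (i + 1)) := by rw [← pow_add]; congr 1; ring

/-- `2 ^ k * (m + 1)! ≤ (m + 1 + k)!`. -/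
lemma two_pow_mul (m k : ℕ) : 2 ^ k * (m + 1)! ≤ (m + 1 + k)! := by
  induction k with
  | zero => simp
  | succ k ih =>
    rw [show m + 1 + (k + 1) = (m + 1 + k) + 1 by ring, Nat.factorial_succ, pow_succ]
    calc 2 ^ k * 2 * (m + 1)! = 2 * (2 ^ k * (m + 1)!) := by ring
      _ ≤ (m + 1 + k + 1) * (m + 1 + k)! := Nat.mul_le_mul (by omega) ih

/-- All the terms from the third on are at most `6 ^ ((n - 2)!)`. -/
lemma term_le (m k : ℕ) : ((k + 3)!) ^ ((m + 1)!) ≤ 6 ^ ((m + 1 + k)!) := by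
  calc ((k + 3)!) ^ ((m + 1)!) ≤ (6 ^ (2 ^ k)) ^ ((m + 1)!) := Nat.pow_le_pow_left (fact_le k) _
    _ = 6 ^ (2 ^ k * (m + 1)!) := by rw [← pow_mul]
    _ ≤ 6 ^ ((m + 1 + k)!) := Nat.pow_le_pow_right (by norm_num) (two_pow_mul m k)

/-- The first two terms separated, `n = t + 2`. -/
lemma a_eq (t : ℕ) :
    a (t + 2) = ∑ k ∈ Finset.range t, ((k + 3)!) ^ ((t - k)!) + 2 ^ ((t + 1)!) + 1 := by
  unfold a
  have h : ∑ i ∈ Finset.Icc 1 (t + 2), (i !) ^ ((t + 2 - i + 1)!) =
      ∑ k ∈ Finset.range (t + 2), ((k + 1)!) ^ ((t + 2 - k)!) := by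
    refine Finset.sum_nbij' (fun i => i - 1) (fun k => k + 1) ?_ ?_ ?_ ?_ ?_
    · intro i hi
      simp only [Finset.mem_Icc] at hi
      simp only [Finset.mem_range]
      omega
    · intro k hk
      simp only [Finset.mem_range] at hk
      simp only [Finset.mem_Icc]
      omega
    · intro i hi
      simp only [Finset.mem_Icc] at hi
      omega
    · intro k _
      omega
    · intro i hi
      simp only [Finset.mem_Icc] at hi
      rw [show i - 1 + 1 = i by omega, show t + 2 - (i - 1) = t + 2 - i + 1 by omega]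
  rw [h, Finset.sum_range_succ', Finset.sum_range_succ']
  simp only [Nat.factorial_one, one_pow, zero_add]
  have h2 : ∀ k : ℕ, t + 2 - (k + 1 + 1) = t - k := by intro k; omega
  simp only [h2]
  norm_num [Nat.factorial]

/-- The sum of the terms from the third on. -/
lemma tail_le (t : ℕ) : ∑ k ∈ Finset.range t, ((k + 3)!) ^ ((t - k)!) ≤ t * 6 ^ (t !) := by
  calc ∑ k ∈ Finset.range t, ((k + 3)!) ^ ((t - k)!) ≤ ∑ k ∈ Finset.range t, 6 ^ (t !) := by
        refine Finset.sum_le_sum fun k hk => ?_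
        rw [Finset.mem_range] at hk
        have h := term_le (t - k - 1) k
        rwa [show t - k - 1 + 1 = t - k by omega, show t - k + k = t by omega] at h
    _ = t * 6 ^ (t !) := by simp

/-- `t * 6 ^ (t!) < 8 ^ (t!)` for `t ≥ 5`. -/
lemma tail_lt (t : ℕ) (ht : 5 ≤ t) : t * 6 ^ (t !) < 8 ^ (t !) := by
  have h1 : t * 24 ≤ t ! := by
    obtain ⟨s, rfl⟩ : ∃ s, t = s + 1 := ⟨t - 1, by omega⟩
    rw [Nat.factorial_succ]
    exact Nat.mul_le_mul le_rfl ((by decide : (24 : ℕ) ≤ 4 !).trans (Nat.factorial_le (by omega)))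
  have h2 : ∀ d : ℕ, (d + 3) * 6 ^ d ≤ 3 * 8 ^ d := by
    intro d
    induction d with
    | zero => norm_num
    | succ d ih =>
      rw [pow_succ, pow_succ]
      nlinarith [pow_pos (by norm_num : (0 : ℕ) < 6) d]
  have h3 := h2 (t !)
  have h4 : 0 < 6 ^ (t !) := by positivity
  nlinarith

/-- Between two consecutive `p`-th powers there is no `p`-th power. -/
lemma no_pow {p c x y : ℕ} (_hp : p ≠ 0) (h1 : c ^ p < x) (h2 : x < (c + 1) ^ p) : x ≠ y ^ p := by
  rintro rfl
  have h3 := lt_of_pow_lt_pow_left₀ p (by omega) h1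
  have h4 := lt_of_pow_lt_pow_left₀ p (by omega) h2
  omega

/-- The case `n ≥ 7`. -/
lemma large (t : ℕ) (ht : 5 ≤ t) (p y : ℕ) (_hp : 2 ≤ p) (hd : p ∣ (t + 1)!) : a (t + 2) ≠ y ^ p := by
  obtain ⟨q, hq⟩ := hd
  have hp0 : p ≠ 0 := by omega
  refine no_pow (c := 2 ^ q) hp0 ?_ ?_
  · rw [a_eq, ← pow_mul, mul_comm q p, ← hq]
    omega
  · rw [a_eq]
    have h1 := tail_le t
    have h2 := tail_lt t ht
    obtain ⟨r, rfl⟩ : ∃ r, p = r + 2 := ⟨p - 2, by omega⟩
    -- `(c + 1) ^ p ≥ c ^ p + p c ^ (p - 1) + 1`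
    have h3 : ∀ (c r : ℕ), c ^ (r + 2) + 2 * c ^ (r + 1) + 1 ≤ (c + 1) ^ (r + 2) := by
      intro c r
      induction r with
      | zero => ring_nf; omega
      | succ r ih =>
        have e1 : (c + 1) ^ (r + 1 + 2) = (c + 1) ^ (r + 2) * (c + 1) := by rw [← pow_succ]
        have e2 : c ^ (r + 1 + 2) = c ^ (r + 2) * c := by rw [← pow_succ]
        have e3 : c ^ (r + 1 + 1) = c ^ (r + 1) * c := by rw [← pow_succ]
        rw [e1, e2, e3]
        nlinarith [Nat.zero_le (c ^ (r + 2)), Nat.zero_le (c ^ (r + 1)), Nat.zero_le c]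
    have h4 := h3 (2 ^ q) r
    have h5 : (2 ^ q) ^ (r + 2) = 2 ^ ((t + 1)!) := by rw [← pow_mul, mul_comm q (r + 2), ← hq]
    have h6 : 8 ^ (t !) ≤ (2 ^ q) ^ (r + 1) := by
      rw [← pow_mul, show (8 : ℕ) = 2 ^ 3 by norm_num, ← pow_mul]
      refine Nat.pow_le_pow_right (by norm_num) ?_
      have h7 : (t + 1) * t ! = (r + 2) * q := by rw [← Nat.factorial_succ, hq]
      nlinarith [Nat.zero_le (t !), Nat.zero_le q, Nat.mul_le_mul_right (t !) (show 6 ≤ t + 1 by omega),
        Nat.zero_le (r * q)]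
    rw [h5] at h4
    omega

/-- The value for `n = 5`. -/
lemma a_five : a 5 = 16824569 := by decide +kernel

/-- The value for `n = 6`. -/
lemma a_six : a 6 = 1 + 2 ^ 120 + 6 ^ 24 + 24 ^ 6 + 120 ^ 2 + 720 := by decide +kernel

/-- The bound for the prime exponents from two logarithms. -/
lemma upper (t : ℕ) (ht : 5 ≤ t) (p y : ℕ) (hp : p.Prime) (hpt : t + 2 ≤ p) (h : a (t + 2) = y ^ p) :
    p < 2 ^ 42 := by
  have hnd : ¬ p ∣ (t + 1)! := by
    rw [hp.dvd_factorial]
    omega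
  have hy : 2 ≤ y := by
    by_contra hcon
    have h1 : y ^ p ≤ 1 := by
      calc y ^ p ≤ 1 ^ p := Nat.pow_le_pow_left (by omega) p
        _ = 1 := one_pow p
    rw [← h, a_eq] at h1
    have h2 : 0 < 2 ^ ((t + 1)!) := by positivity
    omega
  have h1 := tail_le t
  have h2 := tail_lt t ht
  have h3 : y ^ p ≤ 2 ^ ((t + 1)!) + 8 ^ (t !) := by
    rw [← h, a_eq]
    omega
  have h4 : 2 ^ ((t + 1)!) ≤ y ^ p := by
    rw [← h, a_eq]
    omega
  have h5 : |(y : ℝ) ^ p - ((2 : ℕ) : ℝ) ^ ((t + 1)!)| ≤ ((2 : ℕ) : ℝ) ^ ((((t + 1)! : ℕ) : ℝ) / 2) := by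
    have h6 : (y : ℝ) ^ p ≤ ((2 : ℕ) : ℝ) ^ ((t + 1)!) + (8 : ℝ) ^ (t !) := by exact_mod_cast h3
    have h7 : ((2 : ℕ) : ℝ) ^ ((t + 1)!) ≤ (y : ℝ) ^ p := by exact_mod_cast h4
    have h8 : (8 : ℝ) ^ (t !) ≤ ((2 : ℕ) : ℝ) ^ ((((t + 1)! : ℕ) : ℝ) / 2) := by
      have h9 : (8 : ℝ) ^ (t !) = ((2 : ℕ) : ℝ) ^ (((3 * t ! : ℕ)) : ℝ) := by
        rw [Real.rpow_natCast, pow_mul]
        norm_num
      rw [h9]
      refine Real.rpow_le_rpow_of_exponent_le (by norm_num) ?_
      rw [Nat.factorial_succ]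
      have h10 : (1 : ℝ) ≤ (t ! : ℕ) := by exact_mod_cast Nat.factorial_pos t
      have h11 : (5 : ℝ) ≤ t := by exact_mod_cast ht
      push_cast
      nlinarith
    rw [abs_of_nonneg (sub_nonneg.2 h7)]
    exact (sub_le_iff_le_add'.2 h6).trans h8
  have h6 := Pool.Agent.H374R2.W.QM.real_two_logs
    (fun h1 h2 h3 h4 h5 h6 h7 h8 h9 h10 h11 h12 h13 h14 =>
      Pool.Agent.H374R2.W.QL.lfl h1 h2 h3 h4 h5 h6 h7 h8 h9 h10 h11 h12 h13 h14)
    (A := 2) (U := y) (q := p) (x := (t + 1)!) le_rfl hy hp hnd (Nat.factorial_pos _) h5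
  by_contra hcon
  push Not at hcon
  have h7 : 42 ≤ Nat.log 2 p := Nat.le_log_of_pow_le (by norm_num) hcon
  have h8 : 2 ^ Nat.log 2 p ≤ p := Nat.pow_log_le_self 2 hp.ne_zero
  have h9 : Nat.log 2 2 = 1 := by norm_num
  rw [h9] at h6
  generalize Nat.log 2 p = k at h6 h7 h8
  have h10 : ∀ j : ℕ, 10 ^ 9 * 2 * (42 + j + 1) ^ 2 < 2 ^ (42 + j) := by
    intro j
    induction j with
    | zero => norm_num
    | succ j ih =>
      have e1 : 2 ^ (42 + (j + 1)) = 2 * 2 ^ (42 + j) := by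
        rw [show 42 + (j + 1) = (42 + j) + 1 by ring, Nat.pow_succ, mul_comm]
      have e2 : (42 + (j + 1) + 1) ^ 2 ≤ 2 * (42 + j + 1) ^ 2 := by
        rw [show 42 + (j + 1) + 1 = (42 + j + 1) + 1 by ring]
        have e3 : 3 ≤ 42 + j + 1 := by omega
        generalize 42 + j + 1 = w at e3
        nlinarith
      rw [e1]
      generalize (42 + (j + 1) + 1) ^ 2 = u at e2 ⊢
      generalize (42 + j + 1) ^ 2 = v at e2 ih
      generalize 2 ^ (42 + j) = w at ih ⊢
      omega
  have h11 := h10 (k - 42)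
  rw [show 42 + (k - 42) = k by omega] at h11
  omega

/-- **Main theorem.** If `n > 4`, `e > 1` and `a n = b ^ e`, then `n < 2 ^ 42`, and all the prime factors `p`
of `e` satisfy `n ≤ p < 2 ^ 42`.  In particular `a n` is no perfect power for `n ≥ 2 ^ 42`. -/
theorem result (n b e : ℕ) (hn : 4 < n) (he : 1 < e) (h : a n = b ^ e) :
    n < 2 ^ 42 ∧ ∀ p : ℕ, p.Prime → p ∣ e → n ≤ p ∧ p < 2 ^ 42 := by
  have key : ∀ n b e : ℕ, 4 < n → a n = b ^ e → ∀ p : ℕ, p.Prime → p ∣ e → n ≤ p ∧ p < 2 ^ 42 := by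
    intro n b e hn h p hp hpe
    obtain ⟨m, rfl⟩ := hpe
    rw [mul_comm p m, pow_mul] at h
    generalize b ^ m = y at h
    obtain ⟨t, rfl⟩ : ∃ t, n = t + 2 := ⟨n - 2, by omega⟩
    have h1 : t + 2 ≤ p := by
      by_contra hcon
      push Not at hcon
      by_cases ht : 5 ≤ t
      · exact large t ht p y hp.two_le (Nat.dvd_factorial hp.pos (by omega)) h
      · have ht' : t = 3 ∨ t = 4 := by omega
        rcases ht' with rfl | rfl
        · have h2 := hp.two_le
          have h1 : p = 2 ∨ p = 3 ∨ p = 4 := by omega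
          rw [show 3 + 2 = 5 from rfl, a_five] at h
          rcases h1 with rfl | rfl | rfl
          · exact no_pow (c := 4101) (by norm_num) (by norm_num) (by norm_num) h
          · exact no_pow (c := 256) (by norm_num) (by norm_num) (by norm_num) h
          · exact absurd hp (by norm_num)
        · have h2 := hp.two_le
          have h1 : p = 2 ∨ p = 3 ∨ p = 4 ∨ p = 5 := by omega
          rw [show 4 + 2 = 6 from rfl, a_six] at h
          rcases h1 with rfl | rfl | rfl | rfl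
          · exact no_pow (c := 2 ^ 60 + 2) (by norm_num) (by norm_num) (by norm_num) h
          · exact no_pow (c := 2 ^ 40) (by norm_num) (by norm_num) (by norm_num) h
          · exact absurd hp (by norm_num)
          · exact no_pow (c := 2 ^ 24) (by norm_num) (by norm_num) (by norm_num) h
    refine ⟨h1, ?_⟩
    by_cases ht : 5 ≤ t
    · exact upper t ht p y hp h1 h
    · -- the values for `n = 5, 6` are less than `2 ^ 200`
      have h2 : y ^ p < 2 ^ 200 := by
        rw [← h]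
        have ht' : t = 3 ∨ t = 4 := by omega
        rcases ht' with rfl | rfl
        · rw [show 3 + 2 = 5 from rfl, a_five]; norm_num
        · rw [show 4 + 2 = 6 from rfl, a_six]; norm_num
      have h3 : 2 ≤ y := by
        by_contra hcon
        have h4 : y ^ p ≤ 1 := by
          calc y ^ p ≤ 1 ^ p := Nat.pow_le_pow_left (by omega) p
            _ = 1 := one_pow p
        rw [← h] at h4
        have ht' : t = 3 ∨ t = 4 := by omega
        rcases ht' with rfl | rfl
        · rw [show 3 + 2 = 5 from rfl, a_five] at h4; norm_num at h4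
        · rw [show 4 + 2 = 6 from rfl, a_six] at h4; norm_num at h4
      have h5 : 2 ^ p < 2 ^ 200 := lt_of_le_of_lt (Nat.pow_le_pow_left h3 p) h2
      have h6 : p < 200 := (Nat.pow_lt_pow_iff_right (by norm_num)).1 h5
      omega
  obtain ⟨p, hp, hpe⟩ := Nat.exists_prime_and_dvd (show e ≠ 1 by omega)
  have h1 := key n b e hn h p hp hpe
  exact ⟨lt_of_le_of_lt h1.1 h1.2, key n b e hn h⟩

end Pool.Agent.Results.MP_ffd2af_nt.LargeIndices
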