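import Pool.Agent.Helper102_FactPow.Basic

set_option autoImplicit false

namespace Pool.Agent.Results.MP_ffd2af_nt.SmallExponents

open Pool.Agent.Helper102_FactPow

/-- If `n > 4` and `a(n) = b ^ e` with `e > 1`, then every prime factor of `e` is at least `n`. -/
theorem result : ∀ n b e : ℕ, 4 < n → 1 < e → a n = b ^ e →
    ∀ p : ℕ, p.Prime → p ∣ e → n ≤ p := by
  intro n b e hn _ hab
  exact prime_factor_ge n b e hn hab

end Pool.Agent.Results.MP_ffd2af_nt.SmallExponents
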